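import Mathlib

/-! TASK LAYER of `h4_tasks`: sums from weak-type bounds. -/

set_option autoImplicit false

open scoped BigOperators

namespace Pool.Agent.H4R2.AE
namespace Layer

theorem layer_sort {ι : Type} [Fintype ι] [DecidableEq ι] (a : ι → ℝ) (p A : ℝ) (hp : 0 < p)
    (ha : ∀ x, 0 ≤ a x) (hA : 0 ≤ A)
    (h : ∀ t : ℝ, 0 < t → ((Finset.univ.filter fun x => t ≤ a x).card : ℝ) * t ^ p ≤ A)
    (f : ℝ → ℝ) (hf : MonotoneOn f (Set.Ici 0)) (n : ℕ) :
    ∀ s : Finset ι, s.card = n →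
      ∑ x ∈ s, f (a x) ≤ ∑ j ∈ Finset.range n, f ((A / ((j : ℝ) + 1)) ^ (1 / p)) := by
  induction n with
  | zero =>
    intro s hs
    rw [Finset.card_eq_zero] at hs
    subst hs
    simp
  | succ n ih =>
    intro s hs
    have hne : s.Nonempty := by
      rw [← Finset.card_pos, hs]; omega
    obtain ⟨x, hx, hmin⟩ := Finset.exists_min_image s a hne
    have hcard : (s.erase x).card = n := by
      rw [Finset.card_erase_of_mem hx, hs]; rfl
    have hkey : a x ≤ (A / ((n : ℝ) + 1)) ^ (1 / p) := by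
      rcases (ha x).eq_or_lt with h0 | h0
      · rw [← h0]
        exact Real.rpow_nonneg (by positivity) _
      · have h1 := h (a x) h0
        have h2 : ((n : ℝ) + 1) ≤ ((Finset.univ.filter fun y => a x ≤ a y).card : ℝ) := by
          have : s.card ≤ (Finset.univ.filter fun y => a x ≤ a y).card := by
            refine Finset.card_le_card fun y hy => ?_
            simp only [Finset.mem_filter, Finset.mem_univ, true_and]
            exact hmin y hy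
          rw [hs] at this
          exact_mod_cast this
        have h3 : 0 < a x ^ p := Real.rpow_pos_of_pos h0 p
        have h4 : ((n : ℝ) + 1) * a x ^ p ≤ A := le_trans (by gcongr) h1
        have h5 : a x ^ p ≤ A / ((n : ℝ) + 1) := by
          rw [le_div_iff₀ (by positivity)]
          linarith
        calc a x = (a x ^ p) ^ (1 / p) := by
              rw [← Real.rpow_mul h0.le, mul_one_div_cancel hp.ne', Real.rpow_one]
          _ ≤ (A / ((n : ℝ) + 1)) ^ (1 / p) :=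
              Real.rpow_le_rpow h3.le h5 (by positivity)
    rw [← Finset.add_sum_erase s _ hx, Finset.sum_range_succ, add_comm]
    exact add_le_add (ih _ hcard) (hf (ha x) (Real.rpow_nonneg (by positivity) _) hkey)

theorem layer_two (ι : Type) [Fintype ι] [DecidableEq ι] (a : ι → ℝ) (A : ℝ)
    (ha : ∀ x, 0 ≤ a x) (hA : 0 ≤ A)
    (h : ∀ t : ℝ, 0 < t → ((Finset.univ.filter fun x => t ≤ a x).card : ℝ) * t ^ 2 ≤ A) :
    ∑ x, a x ^ 2 ≤ A * (1 + Real.log (Fintype.card ι : ℝ)) := by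
  have h1 := layer_sort a 2 A (by norm_num) ha hA (fun t ht => by
    have := h t ht
    rw [Real.rpow_two]; exact this) (fun y => y ^ 2) (fun x hx y hy hxy => by
      have hx' : (0 : ℝ) ≤ x := hx
      change x ^ 2 ≤ y ^ 2
      gcongr) (Fintype.card ι) Finset.univ Finset.card_univ
  refine h1.trans ?_
  have h2 : ∑ j ∈ Finset.range (Fintype.card ι), (fun y : ℝ => y ^ 2) ((A / ((j : ℝ) + 1)) ^ (1 / (2 : ℝ)))
      = A * (harmonic (Fintype.card ι) : ℝ) := by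
    rw [harmonic, Rat.cast_sum, Finset.mul_sum]
    refine Finset.sum_congr rfl fun j _ => ?_
    have : 0 ≤ A / ((j : ℝ) + 1) := by positivity
    change ((A / ((j : ℝ) + 1)) ^ (1 / (2 : ℝ))) ^ 2 = _
    rw [← Real.sqrt_eq_rpow, Real.sq_sqrt this]
    push_cast
    rw [div_eq_mul_inv]
  rw [h2]
  exact mul_le_mul_of_nonneg_left (harmonic_le_one_add_log _) hA

theorem layer_l1 (β : ℝ) (h0 : 0 < β) (h1 : β < 1) (m : ℕ) :
    ∑ j ∈ Finset.range m, ((j : ℝ) + 1) ^ (-β) ≤ (m : ℝ) ^ (1 - β) / (1 - β) := by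
  have hb : 0 < 1 - β := by linarith
  induction m with
  | zero => simp [Real.zero_rpow hb.ne']
  | succ m ih =>
    rw [Finset.sum_range_succ]
    have hm : (0 : ℝ) < (m : ℝ) + 1 := by positivity
    have hB := rpow_one_add_le_one_add_mul_self (s := -(1 / ((m : ℝ) + 1))) (p := 1 - β)
      (by
        rw [neg_le_neg_iff, div_le_one hm]
        have : (0 : ℝ) ≤ m := Nat.cast_nonneg m
        linarith) hb.le (by linarith)
    have e1 : (m : ℝ) = ((m : ℝ) + 1) * (1 + -(1 / ((m : ℝ) + 1))) := by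
      field_simp
      ring
    have h2 : (m : ℝ) ^ (1 - β) ≤ ((m : ℝ) + 1) ^ (1 - β) - (1 - β) * ((m : ℝ) + 1) ^ (-β) := by
      have hnn : (0 : ℝ) ≤ 1 + -(1 / ((m : ℝ) + 1)) := by
        have : 1 / ((m : ℝ) + 1) ≤ 1 := by
          rw [div_le_one hm]
          have : (0 : ℝ) ≤ m := Nat.cast_nonneg m
          linarith
        linarith
      have e2 : (m : ℝ) ^ (1 - β) =
          ((m : ℝ) + 1) ^ (1 - β) * (1 + -(1 / ((m : ℝ) + 1))) ^ (1 - β) := by
        rw [← Real.mul_rpow hm.le hnn, ← e1]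
      have e3 : ((m : ℝ) + 1) ^ (-β) = ((m : ℝ) + 1) ^ (1 - β) / ((m : ℝ) + 1) := by
        rw [show -β = (1 - β) - 1 by ring, Real.rpow_sub hm, Real.rpow_one]
      rw [e2, e3]
      have hp : 0 < ((m : ℝ) + 1) ^ (1 - β) := Real.rpow_pos_of_pos hm _
      calc ((m : ℝ) + 1) ^ (1 - β) * (1 + -(1 / ((m : ℝ) + 1))) ^ (1 - β)
          ≤ ((m : ℝ) + 1) ^ (1 - β) * (1 + (1 - β) * -(1 / ((m : ℝ) + 1))) := by gcongr
        _ = _ := by ring
    have h3 : ((m : ℝ) + 1) ^ (-β) ≤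
        (((m : ℝ) + 1) ^ (1 - β) - (m : ℝ) ^ (1 - β)) / (1 - β) := by
      rw [le_div_iff₀ hb]; linarith
    push_cast
    calc _ ≤ (m : ℝ) ^ (1 - β) / (1 - β) + (((m : ℝ) + 1) ^ (1 - β) - (m : ℝ) ^ (1 - β)) / (1 - β) :=
          add_le_add ih h3
      _ = _ := by ring

theorem layer_l2 (γ : ℝ) (h1 : 1 < γ) (h2 : γ < 2) (j : ℕ) :
    ((j : ℝ) + 1) ^ (-γ) ≤ 2 ^ γ / (γ - 1) *
      (((j : ℝ) + 1) ^ (1 - γ) - ((j : ℝ) + 2) ^ (1 - γ)) := by
  have hg : 0 < γ - 1 := by linarith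
  have hj1 : (0 : ℝ) < (j : ℝ) + 1 := by positivity
  have hj2 : (0 : ℝ) < (j : ℝ) + 2 := by positivity
  have hB := rpow_one_add_le_one_add_mul_self (s := -(1 / ((j : ℝ) + 2))) (p := γ - 1)
      (by
        rw [neg_le_neg_iff, div_le_one hj2]
        have : (0 : ℝ) ≤ j := Nat.cast_nonneg j
        linarith) hg.le (by linarith)
  have hle1 : 1 / ((j : ℝ) + 2) ≤ 1 / 2 := by
    apply one_div_le_one_div_of_le (by norm_num)
    have : (0 : ℝ) ≤ j := Nat.cast_nonneg j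
    linarith
  have hnn : (0 : ℝ) < 1 + -(1 / ((j : ℝ) + 2)) := by linarith
  have e1 : (j : ℝ) + 1 = ((j : ℝ) + 2) * (1 + -(1 / ((j : ℝ) + 2))) := by
    field_simp
    ring
  set θ := (γ - 1) / ((j : ℝ) + 2) with hθ
  have hθ0 : 0 < θ := by positivity
  have hθ1 : θ < 1 := by
    rw [hθ, div_lt_one hj2]
    have : (0 : ℝ) ≤ j := Nat.cast_nonneg j
    linarith
  set Y := ((j : ℝ) + 2) ^ (γ - 1) with hY
  have hYpos : 0 < Y := Real.rpow_pos_of_pos hj2 _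
  set X := ((j : ℝ) + 1) ^ (γ - 1) with hX
  have hXpos : 0 < X := Real.rpow_pos_of_pos hj1 _
  have hXY : X ≤ Y * (1 - θ) := by
    have e2 : X = Y * (1 + -(1 / ((j : ℝ) + 2))) ^ (γ - 1) := by
      rw [hX, hY, ← Real.mul_rpow hj2.le hnn.le, ← e1]
    rw [e2]
    calc Y * (1 + -(1 / ((j : ℝ) + 2))) ^ (γ - 1) ≤ Y * (1 + (γ - 1) * -(1 / ((j : ℝ) + 2))) := by
          gcongr
      _ = _ := by rw [hθ]; ring
  have eX : ((j : ℝ) + 1) ^ (1 - γ) = X⁻¹ := by
    rw [show 1 - γ = -(γ - 1) by ring, Real.rpow_neg hj1.le]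
  have eY : ((j : ℝ) + 2) ^ (1 - γ) = Y⁻¹ := by
    rw [show 1 - γ = -(γ - 1) by ring, Real.rpow_neg hj2.le]
  have hdiff : θ / Y ≤ X⁻¹ - Y⁻¹ := by
    have h3 : (Y * (1 - θ))⁻¹ ≤ X⁻¹ := inv_anti₀ hXpos hXY
    have h4 : Y⁻¹ * (1 + θ) ≤ (Y * (1 - θ))⁻¹ := by
      rw [mul_inv]
      have : 1 + θ ≤ (1 - θ)⁻¹ := by
        rw [inv_eq_one_div, le_div_iff₀ (by linarith)]
        nlinarith
      exact mul_le_mul_of_nonneg_left this (by positivity)
    have h5 : θ / Y = Y⁻¹ * (1 + θ) - Y⁻¹ := by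
      field_simp
      ring
    linarith
  have e3 : ((j : ℝ) + 2) ^ (-γ) = 1 / (Y * ((j : ℝ) + 2)) := by
    rw [hY, Real.rpow_neg hj2.le, show γ = (γ - 1) + 1 by ring, Real.rpow_add hj2, Real.rpow_one]
    simp
  have h6 : ((j : ℝ) + 1) ^ (-γ) ≤ 2 ^ γ * ((j : ℝ) + 2) ^ (-γ) := by
    rw [Real.rpow_neg hj1.le, Real.rpow_neg hj2.le, ← div_eq_mul_inv, ← Real.div_rpow (by norm_num)
      hj2.le, ← Real.inv_rpow hj1.le]
    apply Real.rpow_le_rpow (by positivity) _ (by linarith)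
    rw [inv_eq_one_div, div_le_div_iff₀ hj1 hj2]
    have : (0 : ℝ) ≤ j := Nat.cast_nonneg j
    linarith
  rw [eX, eY]
  refine h6.trans ?_
  rw [e3]
  have h7 : 1 / (Y * ((j : ℝ) + 2)) = θ / Y / (γ - 1) := by
    rw [hθ]
    field_simp
  rw [h7]
  calc (2 : ℝ) ^ γ * (θ / Y / (γ - 1)) = 2 ^ γ / (γ - 1) * (θ / Y) := by ring
    _ ≤ _ := by gcongr

theorem layer_tail (γ : ℝ) (h1 : 1 < γ) (h2 : γ < 2) (m n : ℕ) (hmn : m ≤ n) :
    ∑ j ∈ Finset.Ico m n, ((j : ℝ) + 1) ^ (-γ) ≤ 2 ^ γ / (γ - 1) * ((m : ℝ) + 1) ^ (1 - γ) := by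
  have hg : 0 < γ - 1 := by linarith
  have key : ∀ n, m ≤ n → ∑ j ∈ Finset.Ico m n, ((j : ℝ) + 1) ^ (-γ) ≤
      2 ^ γ / (γ - 1) * (((m : ℝ) + 1) ^ (1 - γ) - ((n : ℝ) + 1) ^ (1 - γ)) := by
    intro n hn
    induction n, hn using Nat.le_induction with
    | base => simp
    | succ n hn ih =>
      rw [Finset.sum_Ico_succ_top hn]
      have := layer_l2 γ h1 h2 n
      push_cast
      have e : (n : ℝ) + 1 + 1 = n + 2 := by ring
      rw [e]
      linarith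
  refine (key n hmn).trans ?_
  have : 0 ≤ ((n : ℝ) + 1) ^ (1 - γ) := Real.rpow_nonneg (by positivity) _
  gcongr
  linarith

theorem layer_lt_two (p : ℝ) (hp : 1 < p) (hp' : p < 2) : ∃ C : ℝ, 0 < C ∧
    ∀ (ι : Type) [Fintype ι] [DecidableEq ι] (a : ι → ℝ) (A : ℝ), (∀ x, 0 ≤ a x) → 0 ≤ A →
    (∀ t : ℝ, 0 < t → ((Finset.univ.filter fun x => t ≤ a x).card : ℝ) * t ^ p ≤ A) →
    ∑ x, min (a x ^ 2) (a x) ≤ C * A := by
  have hp0 : 0 < p := by linarith
  set γ := 2 / p with hγ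
  have hγ1 : 1 < γ := by rw [hγ, lt_div_iff₀ hp0]; linarith
  have hγ2 : γ < 2 := by rw [hγ, div_lt_iff₀ hp0]; linarith
  set β := 1 / p with hβ
  have hβ0 : 0 < β := by positivity
  have hβ1 : β < 1 := by rw [hβ, div_lt_one hp0]; exact hp
  refine ⟨1 / (1 - β) + 2 ^ γ / (γ - 1), ?_, ?_⟩
  · have h1 : 0 < 1 - β := by linarith
    have h2 : 0 < γ - 1 := by linarith
    positivity
  intro ι _ _ a A ha hA h
  have h1 := layer_sort a p A hp0 ha hA h (fun y => min (y ^ 2) y) (fun x hx y hy hxy => by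
    have hx' : (0 : ℝ) ≤ x := hx
    change min (x ^ 2) x ≤ min (y ^ 2) y
    exact min_le_min (by gcongr) hxy) (Fintype.card ι) Finset.univ Finset.card_univ
  refine h1.trans ?_
  set n := Fintype.card ι
  rcases hA.eq_or_lt with hA0 | hA0
  · subst hA0
    simp [Real.zero_rpow (inv_ne_zero hp0.ne')]
  set m := ⌊A⌋₊ with hm
  have hmA : (m : ℝ) ≤ A := Nat.floor_le hA
  have hAm : A < (m : ℝ) + 1 := Nat.lt_floor_add_one A
  have hr : ∀ j : ℕ, (A / ((j : ℝ) + 1)) ^ (1 / p) = A ^ β * ((j : ℝ) + 1) ^ (-β) := by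
    intro j
    rw [Real.div_rpow hA (by positivity), Real.rpow_neg (by positivity), ← hβ, div_eq_mul_inv]
  have hr2 : ∀ j : ℕ, ((A / ((j : ℝ) + 1)) ^ (1 / p)) ^ 2 = A ^ γ * ((j : ℝ) + 1) ^ (-γ) := by
    intro j
    rw [hr, mul_pow, ← Real.rpow_natCast, ← Real.rpow_natCast, ← Real.rpow_mul hA,
      ← Real.rpow_mul (by positivity)]
    have e : β * ((2 : ℕ) : ℝ) = γ := by rw [hβ, hγ]; push_cast; ring
    rw [neg_mul, e]
  have hpart1 : ∀ q : ℕ, q ≤ m → ∑ j ∈ Finset.range q, A ^ β * ((j : ℝ) + 1) ^ (-β) ≤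
      1 / (1 - β) * A := by
    intro q hq
    rw [← Finset.mul_sum]
    have h3 := layer_l1 β hβ0 hβ1 q
    have hb : 0 < 1 - β := by linarith
    have hqA : (q : ℝ) ≤ A := le_trans (by exact_mod_cast hq) hmA
    calc A ^ β * ∑ j ∈ Finset.range q, ((j : ℝ) + 1) ^ (-β)
        ≤ A ^ β * ((q : ℝ) ^ (1 - β) / (1 - β)) := by gcongr
      _ ≤ A ^ β * (A ^ (1 - β) / (1 - β)) := by gcongr
      _ = (A ^ β * A ^ (1 - β)) / (1 - β) := by ring
      _ = 1 / (1 - β) * A := by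
          rw [← Real.rpow_add hA0]
          rw [show β + (1 - β) = 1 by ring, Real.rpow_one]
          ring
  have hpart2 : ∀ q : ℕ, m ≤ q → ∑ j ∈ Finset.Ico m q, A ^ γ * ((j : ℝ) + 1) ^ (-γ) ≤
      2 ^ γ / (γ - 1) * A := by
    intro q hq
    rw [← Finset.mul_sum]
    have h3 := layer_tail γ hγ1 hγ2 m q hq
    have hb : 0 < γ - 1 := by linarith
    have h4 : ((m : ℝ) + 1) ^ (1 - γ) ≤ A ^ (1 - γ) :=
      Real.rpow_le_rpow_of_nonpos hA0 hAm.le (by linarith)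
    calc A ^ γ * ∑ j ∈ Finset.Ico m q, ((j : ℝ) + 1) ^ (-γ)
        ≤ A ^ γ * (2 ^ γ / (γ - 1) * ((m : ℝ) + 1) ^ (1 - γ)) := by gcongr
      _ ≤ A ^ γ * (2 ^ γ / (γ - 1) * A ^ (1 - γ)) := by gcongr
      _ = 2 ^ γ / (γ - 1) * (A ^ γ * A ^ (1 - γ)) := by ring
      _ = 2 ^ γ / (γ - 1) * A := by
          rw [← Real.rpow_add hA0]
          rw [show γ + (1 - γ) = 1 by ring, Real.rpow_one]
  have hb1 : 0 < 1 - β := by linarith
  have hb2 : 0 < γ - 1 := by linarith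
  rcases le_total n m with hnm | hnm
  · calc ∑ j ∈ Finset.range n, (fun y : ℝ => min (y ^ 2) y) ((A / ((j : ℝ) + 1)) ^ (1 / p))
        ≤ ∑ j ∈ Finset.range n, A ^ β * ((j : ℝ) + 1) ^ (-β) :=
          Finset.sum_le_sum fun j _ => by rw [← hr j]; exact min_le_right _ _
      _ ≤ 1 / (1 - β) * A := hpart1 n hnm
      _ ≤ (1 / (1 - β) + 2 ^ γ / (γ - 1)) * A := by
          gcongr
          have : 0 ≤ (2 : ℝ) ^ γ / (γ - 1) := by positivity
          linarith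
  · rw [← Finset.sum_range_add_sum_Ico _ hnm, add_mul]
    refine add_le_add ?_ ?_
    · refine le_trans (Finset.sum_le_sum fun j _ => ?_) (hpart1 m le_rfl)
      rw [← hr j]; exact min_le_right _ _
    · refine le_trans (Finset.sum_le_sum fun j _ => ?_) (hpart2 n hnm)
      rw [← hr2 j]; exact min_le_left _ _

end Layer
end Pool.Agent.H4R2.AE
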